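import Pool.Agent.helper47.SPI.Spec
import Pool.Agent.helper76.PY2.DIL
import Pool.Agent.helper51.PY2.GEO
import Pool.Agent.helper36.PY2.LOW
import Pool.Agent.helper34.PY2.SPC
import Pool.Agent.helper29.PY2.WSUM
import Pool.Agent.helper95.PY2.WTOT

/-!
# Project SPI (MP_f6e9a2_nt), row NUM: collisions of the points `(s + x) / m`
-/

set_option autoImplicit false

namespace Pool.Agent.SPI

open Finset Pool.Agent.helper85.PG
open Pool.Agent.PY2 (wf ps)

theorem NUM_add {p : ℕ} [NeZero p] (x y : ZMod p) : ps (x + y) = ps x * ps y := by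
  unfold ps
  exact AddChar.map_add_eq_mul _ x y

theorem NUM_zero {p : ℕ} [NeZero p] : ps (0 : ZMod p) = 1 := by
  unfold ps
  exact AddChar.map_zero_eq_one _

theorem NUM_conj {p : ℕ} [NeZero p] (x : ZMod p) :
    (starRingEnd ℂ) (ps x) = ps (-x) := by
  unfold ps
  exact (AddChar.map_neg_eq_conj _ x).symm

theorem NUM_sum {p : ℕ} [Fact p.Prime] (b : ZMod p) :
    ∑ y : ZMod p, ps (b * y) = if b = 0 then (p : ℂ) else 0 := by
  have h := AddChar.sum_mulShift (R := ZMod p) (R' := ℂ) b (ZMod.isPrimitive_stdAddChar p)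
  rw [ZMod.card] at h
  have h2 : ∑ y : ZMod p, ps (b * y) = ∑ x : ZMod p, ZMod.stdAddChar (x * b) := by
    refine sum_congr rfl fun y _ => ?_
    unfold ps
    rw [mul_comm]
  rw [h2, h]
  split_ifs <;> simp

/-- the square of the geometric sum -/
theorem NUM_sq {p : ℕ} [NeZero p] (R : ℕ) (y : ZMod p) :
    ((‖∑ r ∈ range R, ps ((r : ZMod p) * y)‖ ^ 2 : ℝ) : ℂ) =
      ∑ f ∈ Ioo (-(R : ℤ)) R,
        ((((range R ×ˢ range R).filter fun z : ℕ × ℕ => (z.1 : ℤ) - z.2 = f).card : ℕ) : ℂ) *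
          ps ((f : ZMod p) * y) := by
  have h1 : ((‖∑ r ∈ range R, ps ((r : ZMod p) * y)‖ ^ 2 : ℝ) : ℂ) =
      (∑ r ∈ range R, ps ((r : ZMod p) * y)) *
        (starRingEnd ℂ) (∑ r ∈ range R, ps ((r : ZMod p) * y)) := by
    rw [Complex.mul_conj, Complex.normSq_eq_norm_sq]
  rw [h1, map_sum, sum_mul_sum, ← sum_product']
  have h2 : ∀ z ∈ range R ×ˢ range R,
      ps ((z.1 : ZMod p) * y) * (starRingEnd ℂ) (ps ((z.2 : ZMod p) * y)) =
        ps ((((z.1 : ℤ) - z.2 : ℤ) : ZMod p) * y) := by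
    intro z _
    rw [NUM_conj, ← NUM_add]
    congr 1
    push_cast
    ring
  rw [sum_congr rfl h2]
  have h3 : ∀ z ∈ range R ×ˢ range R, ((z.1 : ℤ) - z.2) ∈ Ioo (-(R : ℤ)) R := by
    intro z hz
    rw [mem_product, mem_range, mem_range] at hz
    rw [mem_Ioo]
    constructor <;> omega
  rw [← sum_fiberwise_of_maps_to h3]
  refine sum_congr rfl fun f _ => ?_
  have h4 : ∀ z ∈ (range R ×ˢ range R).filter (fun z : ℕ × ℕ => (z.1 : ℤ) - z.2 = f),
      ps ((((z.1 : ℤ) - z.2 : ℤ) : ZMod p) * y) = ps ((f : ZMod p) * y) := by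
    intro z hz
    rw [(mem_filter.1 hz).2]
  rw [sum_congr rfl h4, sum_const, nsmul_eq_mul]

/-- Parseval -/
theorem NUM_parseval {p : ℕ} [Fact p.Prime] (R : ℕ) (hR : 2 * R ≤ p) (a : ℤ → ℂ) :
    ∑ y : ZMod p, (∑ f ∈ Ioo (-(R : ℤ)) R, a f * ps ((f : ZMod p) * y)) *
      (starRingEnd ℂ) (∑ f ∈ Ioo (-(R : ℤ)) R, a f * ps ((f : ZMod p) * y)) =
    (p : ℂ) * ∑ f ∈ Ioo (-(R : ℤ)) R, a f * (starRingEnd ℂ) (a f) := by
  have h1 : ∀ y : ZMod p, (∑ f ∈ Ioo (-(R : ℤ)) R, a f * ps ((f : ZMod p) * y)) *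
      (starRingEnd ℂ) (∑ f ∈ Ioo (-(R : ℤ)) R, a f * ps ((f : ZMod p) * y)) =
      ∑ f ∈ Ioo (-(R : ℤ)) R, ∑ g ∈ Ioo (-(R : ℤ)) R,
        a f * (starRingEnd ℂ) (a g) * ps (((f : ZMod p) - (g : ZMod p)) * y) := by
    intro y
    rw [map_sum, sum_mul_sum]
    refine sum_congr rfl fun f _ => sum_congr rfl fun g _ => ?_
    rw [map_mul, NUM_conj]
    have h2 : ps (((f : ZMod p) - (g : ZMod p)) * y) = ps ((f : ZMod p) * y) *
        ps (-((g : ZMod p) * y)) := by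
      rw [← NUM_add]
      congr 1
      ring
    rw [h2]
    ring
  rw [sum_congr rfl fun y _ => h1 y, sum_comm, mul_sum]
  refine sum_congr rfl fun f hf => ?_
  rw [sum_comm]
  have h3 : ∀ g ∈ Ioo (-(R : ℤ)) R, ∑ y : ZMod p,
      a f * (starRingEnd ℂ) (a g) * ps (((f : ZMod p) - (g : ZMod p)) * y) =
      if g = f then (p : ℂ) * (a f * (starRingEnd ℂ) (a g)) else 0 := by
    intro g hg
    rw [← mul_sum, NUM_sum]
    rw [mem_Ioo] at hf hg
    by_cases hfg : g = f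
    · rw [if_pos hfg, if_pos (by rw [hfg, sub_self])]
      ring
    · rw [if_neg hfg, if_neg, mul_zero]
      intro h
      apply hfg
      have h4 : ((f - g : ℤ) : ZMod p) = 0 := by
        push_cast
        exact h
      rw [ZMod.intCast_zmod_eq_zero_iff_dvd] at h4
      have h5 : |f - g| < (p : ℤ) := by
        rw [abs_lt]
        constructor <;> omega
      have h6 := Int.eq_zero_of_abs_lt_dvd h4 h5
      omega
  rw [sum_congr rfl h3, sum_ite_eq' (Ioo (-(R : ℤ)) R) f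
    (fun g => (p : ℂ) * (a f * (starRingEnd ℂ) (a g))), if_pos hf]

/-- the band limited majorant of the cells of the points of `S` -/
noncomputable def NUM_W {p : ℕ} [NeZero p] (S : Finset (ZMod p)) (h R : ℕ) (y : ZMod p) : ℝ :=
  ∑ s ∈ S, wf R (y - ((s.val / h * h : ℕ) : ZMod p))

theorem NUM_wf_nonneg {p : ℕ} [NeZero p] (R : ℕ) (y : ZMod p) : 0 ≤ wf R y := by
  unfold wf
  positivity

theorem NUM_W_nonneg {p : ℕ} [NeZero p] (S : Finset (ZMod p)) (h R : ℕ) (y : ZMod p) :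
    0 ≤ NUM_W S h R y :=
  sum_nonneg fun _ _ => NUM_wf_nonneg _ _

theorem NUM_exp {p : ℕ} [Fact p.Prime] (S : Finset (ZMod p)) (h R : ℕ) (hR : 1 ≤ R)
    (hRp : 2 * R ≤ p) :
    ∃ a : ℤ → ℂ, (∀ y : ZMod p, ((NUM_W S h R y : ℝ) : ℂ) =
      ∑ f ∈ Ioo (-(R : ℤ)) R, a f * ps ((f : ZMod p) * y)) ∧
      a 0 = ((4 / R * S.card : ℝ) : ℂ) ∧
      (p : ℝ) * ∑ f ∈ Ioo (-(R : ℤ)) R, ‖a f‖ ^ 2 = ∑ y : ZMod p, NUM_W S h R y ^ 2 := by
  set cR : ℤ → ℂ := fun f =>
    ((((range R ×ˢ range R).filter fun z : ℕ × ℕ => (z.1 : ℤ) - z.2 = f).card : ℕ) : ℂ) with hcR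
  set a : ℤ → ℂ := fun f => (4 / (R : ℂ) ^ 2) * cR f *
    ∑ s ∈ S, ps (-((f : ZMod p) * ((s.val / h * h : ℕ) : ZMod p)))
    with ha
  have hRc : (R : ℂ) ≠ 0 := by
    have : R ≠ 0 := by omega
    exact_mod_cast this
  have hF : ∀ y : ZMod p, ((NUM_W S h R y : ℝ) : ℂ) =
      ∑ f ∈ Ioo (-(R : ℤ)) R, a f * ps ((f : ZMod p) * y) := by
    intro y
    unfold NUM_W
    rw [Complex.ofReal_sum]
    have h1 : ∀ s ∈ S,
        ((wf R (y - ((s.val / h * h : ℕ) : ZMod p)) : ℝ) : ℂ) =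
        ∑ f ∈ Ioo (-(R : ℤ)) R, (4 / (R : ℂ) ^ 2) * cR f *
          ps (-((f : ZMod p) * ((s.val / h * h : ℕ) : ZMod p))) *
            ps ((f : ZMod p) * y) := by
      intro s _
      have h2 : ((wf R (y - ((s.val / h * h : ℕ) : ZMod p)) : ℝ) : ℂ) = (4 / (R : ℂ) ^ 2) *
          ∑ f ∈ Ioo (-(R : ℤ)) R, cR f *
            ps ((f : ZMod p) * (y - ((s.val / h * h : ℕ) : ZMod p))) := by
        unfold wf
        rw [Complex.ofReal_mul, NUM_sq]
        push_cast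
        rfl
      rw [h2, mul_sum]
      refine sum_congr rfl fun f _ => ?_
      have h3 : ps ((f : ZMod p) * (y - ((s.val / h * h : ℕ) : ZMod p))) =
          ps (-((f : ZMod p) * ((s.val / h * h : ℕ) : ZMod p))) * ps ((f : ZMod p) * y) := by
        rw [← NUM_add]
        congr 1
        ring
      rw [h3]
      ring
    rw [sum_congr rfl h1, sum_comm]
    refine sum_congr rfl fun f _ => ?_
    rw [← sum_mul, ← mul_sum]
  refine ⟨a, hF, ?_, ?_⟩
  · have h1 : cR 0 = (R : ℂ) := by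
      have h2 : ((range R ×ˢ range R).filter fun z : ℕ × ℕ => (z.1 : ℤ) - z.2 = 0) =
          (range R).image fun r => (r, r) := by
        ext z
        rw [mem_filter, mem_product, mem_range, mem_range, mem_image]
        constructor
        · rintro ⟨⟨h3, _⟩, h5⟩
          refine ⟨z.1, mem_range.2 h3, ?_⟩
          have h6 : z.1 = z.2 := by omega
          exact Prod.ext rfl h6
        · rintro ⟨r, hr, rfl⟩
          rw [mem_range] at hr
          exact ⟨⟨hr, hr⟩, sub_self _⟩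
      have h3 : ((range R).image fun r => (r, r)).card = R := by
        rw [card_image_of_injective _ (fun r s hrs => (Prod.mk.inj hrs).1), card_range]
      show ((((range R ×ˢ range R).filter fun z : ℕ × ℕ => (z.1 : ℤ) - z.2 = 0).card : ℕ) : ℂ) = R
      rw [h2, h3]
    show (4 / (R : ℂ) ^ 2) * cR 0 * ∑ s ∈ S,
      ps (-(((0 : ℤ) : ZMod p) * ((s.val / h * h : ℕ) : ZMod p))) = _
    rw [h1]
    have h4 : ∑ s ∈ S,
        ps (-(((0 : ℤ) : ZMod p) * ((s.val / h * h : ℕ) : ZMod p))) = (S.card : ℂ) := by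
      rw [sum_congr rfl fun s _ => show
        ps (-(((0 : ℤ) : ZMod p) * ((s.val / h * h : ℕ) : ZMod p))) = 1 by
          rw [Int.cast_zero, zero_mul, neg_zero, NUM_zero], sum_const, nsmul_eq_mul, mul_one]
    rw [h4]
    push_cast
    field_simp
  · have h1 := NUM_parseval R hRp a
    have h2 : ∀ y : ZMod p, (∑ f ∈ Ioo (-(R : ℤ)) R, a f * ps ((f : ZMod p) * y)) *
        (starRingEnd ℂ) (∑ f ∈ Ioo (-(R : ℤ)) R, a f * ps ((f : ZMod p) * y)) =
        ((NUM_W S h R y ^ 2 : ℝ) : ℂ) := by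
      intro y
      rw [← hF y, Complex.conj_ofReal]
      push_cast
      ring
    rw [sum_congr rfl fun y _ => h2 y, ← Complex.ofReal_sum] at h1
    have h3 : ∀ f, a f * (starRingEnd ℂ) (a f) = ((‖a f‖ ^ 2 : ℝ) : ℂ) := by
      intro f
      rw [Complex.mul_conj, Complex.normSq_eq_norm_sq]
    rw [sum_congr rfl fun f _ => h3 f, ← Complex.ofReal_sum] at h1
    have h4 : ((∑ y : ZMod p, NUM_W S h R y ^ 2 : ℝ) : ℂ) =
        (((p : ℝ) * ∑ f ∈ Ioo (-(R : ℤ)) R, ‖a f‖ ^ 2 : ℝ) : ℂ) := by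
      rw [h1]
      push_cast
      rfl
    exact (Complex.ofReal_injective h4).symm

/-- the majorant -/
theorem NUM_maj {p : ℕ} [Fact p.Prime] (S : Finset (ZMod p)) (h R : ℕ) (hh : 1 ≤ h) (hR : 1 ≤ R)
    (hhR : 12 * h * R ≤ p) (y : ZMod p) :
    (((S ×ˢ range h).filter fun z => z.1 + (z.2 : ZMod p) = y).card : ℝ) ≤ NUM_W S h R y := by
  have hRpos : (0 : ℝ) < R := by exact_mod_cast hR
  have hhp : h ≤ p := by nlinarith
  rw [card_filter, sum_product, Nat.cast_sum]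
  unfold NUM_W
  refine sum_le_sum fun s _ => ?_
  by_cases hex : ∃ x ∈ range h, s + (x : ZMod p) = y
  · obtain ⟨x, hx, hxy⟩ := hex
    rw [mem_range] at hx
    have h1 : ∑ x' ∈ range h, (if s + (x' : ZMod p) = y then 1 else 0 : ℕ) ≤ 1 := by
      rw [← card_filter, card_le_one]
      intro a ha b hb
      rw [mem_filter, mem_range] at ha hb
      have h2 : (a : ZMod p) = (b : ZMod p) := add_left_cancel (ha.2.trans hb.2.symm)
      have h3 := congrArg ZMod.val h2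
      rwa [ZMod.val_natCast_of_lt (by omega), ZMod.val_natCast_of_lt (by omega)] at h3
    have h4 : y - ((s.val / h * h : ℕ) : ZMod p) = ((s.val % h + x : ℕ) : ZMod p) := by
      have h5 : ((s.val / h * h + s.val % h : ℕ) : ZMod p) = s := by
        rw [Nat.div_add_mod' s.val h, ZMod.natCast_zmod_val]
      rw [← hxy]
      push_cast
      push_cast at h5
      linear_combination (-1 : ZMod p) * h5
    have h6 : s.val % h < h := Nat.mod_lt _ (by omega)
    have h7 := Pool.Agent.PY2.LOW p R (s.val % h + x) (by nlinarith)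
    have h8 : (1 : ℝ) ≤ wf R (y - ((s.val / h * h : ℕ) : ZMod p)) := by
      rw [h4]
      unfold wf
      have h9 : (R : ℝ) ^ 2 ≤
          (2 * ‖∑ r ∈ range R, ps ((r : ZMod p) * ((s.val % h + x : ℕ) : ZMod p))‖) ^ 2 :=
        pow_le_pow_left₀ hRpos.le h7 2
      rw [div_mul_eq_mul_div, le_div_iff₀ (by positivity)]
      linarith
    calc ((∑ x' ∈ range h, (if s + (x' : ZMod p) = y then 1 else 0 : ℕ) : ℕ) : ℝ) ≤ 1 := by
          exact_mod_cast h1
      _ ≤ _ := h8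
  · have h1 : ∑ x' ∈ range h, (if s + (x' : ZMod p) = y then 1 else 0 : ℕ) = 0 := by
      refine sum_eq_zero fun x hx => ?_
      rw [if_neg]
      intro h2
      exact hex ⟨x, hx, h2⟩
    show ((∑ x' ∈ range h, (if s + (x' : ZMod p) = y then 1 else 0 : ℕ) : ℕ) : ℝ) ≤ _
    rw [h1, Nat.cast_zero]
    exact NUM_wf_nonneg _ _

theorem NUM : NUM_stmt := by
  intro p _ S h M T hM hMh hhp hT hcell
  have hp0 : 0 < p := (Fact.out : p.Prime).pos
  have hh : 1 ≤ h := by omega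
  set R : ℕ := p / (12 * h) with hR
  have hR2 : 2 ≤ R := by
    rw [hR, Nat.le_div_iff_mul_le (by omega)]
    omega
  have hRp : 12 * h * R ≤ p := by rw [hR]; exact Nat.mul_div_le p (12 * h)
  have hpR : p ≤ 24 * h * R := by
    have h8 : p < 12 * h * (R + 1) := by
      rw [hR]; exact Nat.lt_mul_div_succ p (by omega)
    nlinarith
  have hLR : 2 * (2 * M * R) < p := by nlinarith
  have h2R : 2 * R ≤ p := by nlinarith
  have hRlep : R ≤ p := by omega
  have hRpos : (0 : ℝ) < R := by exact_mod_cast (by omega : 0 < R)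
  have hppos : (0 : ℝ) < p := by exact_mod_cast hp0
  have hhpos : (0 : ℝ) < h := by exact_mod_cast (by omega : 0 < h)
  have hpRr : (p : ℝ) ≤ 24 * h * R := by exact_mod_cast hpR
  obtain ⟨a, ha, ha0, hapar⟩ := NUM_exp S h R (by omega) h2R
  obtain ⟨b, hb⟩ : ∃ b : ℕ → ℤ → ℂ, b = fun m f => if M < m then a f else 0 := ⟨_, rfl⟩
  have hIoc : Ioc M (2 * M) = (Icc 1 (2 * M)).filter fun m => M < m := by
    ext m
    rw [mem_filter, mem_Ioc, mem_Icc]
    omega
  have hcardM : (Ioc M (2 * M)).card = M := by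
    rw [Nat.card_Ioc]
    omega
  -- pointwise bound
  have hpt : ∀ r : ZMod p, (nu S h M r : ℝ) ^ 2 ≤
      ‖∑ m ∈ Icc 1 (2 * M), ∑ f ∈ Ioo (-(R : ℤ)) R,
        b m f * ps ((m : ZMod p) * (f : ZMod p) * r)‖ ^ 2 := by
    intro r
    have e1 : ∑ m ∈ Icc 1 (2 * M), ∑ f ∈ Ioo (-(R : ℤ)) R,
        b m f * ps ((m : ZMod p) * (f : ZMod p) * r) =
        ((∑ m ∈ Ioc M (2 * M), NUM_W S h R ((m : ZMod p) * r) : ℝ) : ℂ) := by
      rw [hIoc, sum_filter]
      push_cast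
      refine sum_congr rfl fun m _ => ?_
      rw [hb]
      by_cases hm : M < m
      · simp only [if_pos hm]
        rw [ha ((m : ZMod p) * r)]
        refine sum_congr rfl fun f _ => ?_
        congr 2
        ring
      · simp only [if_neg hm, zero_mul, sum_const_zero, Complex.ofReal_zero]
    rw [e1, Complex.norm_real]
    have h9 : (nu S h M r : ℝ) ≤ ∑ m ∈ Ioc M (2 * M), NUM_W S h R ((m : ZMod p) * r) := by
      unfold nu
      rw [Nat.cast_sum]
      exact sum_le_sum fun m _ => NUM_maj S h R hh (by omega) hRp _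
    have h10 : 0 ≤ ∑ m ∈ Ioc M (2 * M), NUM_W S h R ((m : ZMod p) * r) :=
      sum_nonneg fun m _ => NUM_W_nonneg _ _ _ _
    rw [Real.norm_of_nonneg h10]
    exact pow_le_pow_left₀ (Nat.cast_nonneg _) h9 2
  have hd := Pool.Agent.PY2.DIL p (2 * M) R T b (by omega) hLR (fun n hn1 hn2 => hT n hn1 (by
    have : 2 * M * R ≤ p := by omega
    omega))
  -- first term
  have hF1 : (p : ℝ) * ‖∑ m ∈ Icc 1 (2 * M), b m 0‖ ^ 2 ≤
      10 ^ 4 * ((M : ℝ) * S.card * h) ^ 2 / p := by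
    have e2 : ∑ m ∈ Icc 1 (2 * M), b m 0 = ((M * (4 / R * S.card) : ℝ) : ℂ) := by
      rw [hb]
      show ∑ m ∈ Icc 1 (2 * M), (if M < m then a 0 else 0) = _
      rw [← sum_filter, ← hIoc, sum_const, hcardM, nsmul_eq_mul, ha0]
      push_cast
      ring
    rw [e2, Complex.norm_real, Real.norm_of_nonneg (by positivity)]
    have h12 : 4 / (R : ℝ) ≤ 96 * h / p := by
      rw [div_le_div_iff₀ hRpos hppos]
      nlinarith
    have h11 : (M : ℝ) * (4 / R * S.card) ≤ 96 * h / p * (M * S.card) := by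
      have h13 : (0 : ℝ) ≤ (M : ℝ) * S.card := by positivity
      calc (M : ℝ) * (4 / R * S.card) = 4 / R * (M * S.card) := by ring
        _ ≤ _ := mul_le_mul_of_nonneg_right h12 h13
    have h13 : ((M : ℝ) * (4 / R * S.card)) ^ 2 ≤ (96 * h / p * (M * S.card)) ^ 2 :=
      pow_le_pow_left₀ (by positivity) h11 2
    calc (p : ℝ) * ((M : ℝ) * (4 / R * S.card)) ^ 2
        ≤ p * (96 * h / p * (M * S.card)) ^ 2 := mul_le_mul_of_nonneg_left h13 hppos.le
      _ = 9216 * ((M : ℝ) * S.card * h) ^ 2 / p := by field_simp; ring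
      _ ≤ 10 ^ 4 * ((M : ℝ) * S.card * h) ^ 2 / p := by
          gcongr
          norm_num
  -- second term
  have hWle : ∀ y, NUM_W S h R y ≤ 1000 := by
    intro y
    have h14 := Pool.Agent.PY2.WSUM Pool.Agent.PY2.GEO Pool.Agent.PY2.SPC p h h R y hh le_rfl
      (by omega) hpR
    have h15 : NUM_W S h R y ≤ ∑ j ∈ range (p / h + 1), wf R (y - ((j * h : ℕ) : ZMod p)) := by
      have h16 : NUM_W S h R y = ∑ j ∈ S.image (fun s : ZMod p => s.val / h),
          wf R (y - ((j * h : ℕ) : ZMod p)) := by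
        rw [sum_image (fun s hs s' hs' hss => hcell s hs s' hs' hss)]
        rfl
      rw [h16]
      refine sum_le_sum_of_subset_of_nonneg ?_ fun j _ _ => NUM_wf_nonneg _ _
      intro j hj
      obtain ⟨s, _, rfl⟩ := mem_image.1 hj
      rw [mem_range]
      have h17 : s.val / h ≤ p / h := Nat.div_le_div_right (ZMod.val_lt s).le
      omega
    refine h15.trans ?_
    have h18 : (h : ℝ) * ∑ j ∈ range (p / h + 1), wf R (y - ((j * h : ℕ) : ZMod p)) ≤
        h * 1000 := by linarith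
    exact le_of_mul_le_mul_left h18 hhpos
  have hWsum : ∑ y : ZMod p, NUM_W S h R y ≤ 96 * h * S.card := by
    unfold NUM_W
    rw [sum_comm]
    have h18 : 4 * (p : ℝ) / R ≤ 96 * h := by
      rw [div_le_iff₀ hRpos]
      nlinarith
    calc ∑ s ∈ S, ∑ y : ZMod p, wf R (y - ((s.val / h * h : ℕ) : ZMod p)) ≤
        ∑ s ∈ S, (96 * h : ℝ) := by
          refine sum_le_sum fun s _ => ?_
          have e3 : ∑ y : ZMod p, wf R (y - ((s.val / h * h : ℕ) : ZMod p)) =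
              ∑ y : ZMod p, wf R y :=
            Equiv.sum_comp (Equiv.subRight (((s.val / h * h : ℕ) : ZMod p))) (fun y => wf R y)
          rw [e3, Pool.Agent.PY2.WTOT p R (by omega) hRlep]
          exact h18
      _ = 96 * h * S.card := by
          rw [sum_const, nsmul_eq_mul]
          ring
  have hF2 : (p : ℝ) * (T * ∑ m ∈ Icc 1 (2 * M), ∑ f ∈ Ioo (-(R : ℤ)) R, ‖b m f‖ ^ 2) ≤
      10 ^ 5 * T * (M * S.card * h) := by
    have e4 : ∑ m ∈ Icc 1 (2 * M), ∑ f ∈ Ioo (-(R : ℤ)) R, ‖b m f‖ ^ 2 =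
        M * ∑ f ∈ Ioo (-(R : ℤ)) R, ‖a f‖ ^ 2 := by
      have e5 : ∀ m ∈ Icc 1 (2 * M), ∑ f ∈ Ioo (-(R : ℤ)) R, ‖b m f‖ ^ 2 =
          if M < m then ∑ f ∈ Ioo (-(R : ℤ)) R, ‖a f‖ ^ 2 else 0 := by
        intro m _
        rw [hb]
        by_cases hm : M < m
        · simp only [if_pos hm]
        · simp [if_neg hm]
      rw [sum_congr rfl e5, ← sum_filter, ← hIoc, sum_const, hcardM, nsmul_eq_mul]
    have h19 : ∑ y : ZMod p, NUM_W S h R y ^ 2 ≤ 1000 * (96 * h * S.card) := by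
      calc ∑ y : ZMod p, NUM_W S h R y ^ 2 ≤ ∑ y : ZMod p, 1000 * NUM_W S h R y := by
            refine sum_le_sum fun y _ => ?_
            rw [sq]
            exact mul_le_mul_of_nonneg_right (hWle y) (NUM_W_nonneg _ _ _ _)
        _ = 1000 * ∑ y : ZMod p, NUM_W S h R y := by rw [mul_sum]
        _ ≤ _ := by linarith
    rw [e4]
    calc (p : ℝ) * (T * (M * ∑ f ∈ Ioo (-(R : ℤ)) R, ‖a f‖ ^ 2)) =
        T * M * (p * ∑ f ∈ Ioo (-(R : ℤ)) R, ‖a f‖ ^ 2) := by ring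
      _ = T * M * ∑ y : ZMod p, NUM_W S h R y ^ 2 := by rw [hapar]
      _ ≤ T * M * (1000 * (96 * h * S.card)) := mul_le_mul_of_nonneg_left h19 (by positivity)
      _ = 96000 * (T * (M * S.card * h)) := by ring
      _ ≤ 10 ^ 5 * (T * (M * S.card * h)) := by
          gcongr
          norm_num
      _ = 10 ^ 5 * T * (M * S.card * h) := by ring
  calc ∑ r : ZMod p, (nu S h M r : ℝ) ^ 2
      ≤ ∑ r : ZMod p, ‖∑ m ∈ Icc 1 (2 * M), ∑ f ∈ Ioo (-(R : ℤ)) R,
        b m f * ps ((m : ZMod p) * (f : ZMod p) * r)‖ ^ 2 :=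
        sum_le_sum fun r _ => hpt r
    _ ≤ p * (‖∑ m ∈ Icc 1 (2 * M), b m 0‖ ^ 2 +
        T * ∑ m ∈ Icc 1 (2 * M), ∑ f ∈ Ioo (-(R : ℤ)) R, ‖b m f‖ ^ 2) := hd
    _ = p * ‖∑ m ∈ Icc 1 (2 * M), b m 0‖ ^ 2 +
        p * (T * ∑ m ∈ Icc 1 (2 * M), ∑ f ∈ Ioo (-(R : ℤ)) R, ‖b m f‖ ^ 2) := by
        ring
    _ ≤ _ := add_le_add hF1 hF2

end Pool.Agent.SPI
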